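import Pool.Agent.E8helper29.Zn.Stm

/-!
Piece 4 of project ZN: polarization over sign vectors.
-/

set_option autoImplicit false

namespace Pool.Agent.E8helper7.Zn

open Finset Pool.Agent.Helper649.Zono
open scoped Nat

/-- the sum over signs for one map `f` -/
lemma sum_signs (m : ℕ) (f : Fin m → Fin m) :
    ∑ σ : Fin m → Bool, (∏ i, sg (σ i)) * ∏ j, sg (σ (f j)) =
      if Function.Bijective f then (2 : ℝ) ^ m else 0 := by
  have h1 : ∀ σ : Fin m → Bool, (∏ i, sg (σ i)) * ∏ j, sg (σ (f j)) =
      ∏ i, sg (σ i) ^ (1 + (univ.filter (fun j => f j = i)).card) := by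
    intro σ
    have h2 : ∏ j, sg (σ (f j)) = ∏ i, sg (σ i) ^ (univ.filter (fun j => f j = i)).card := by
      rw [← Finset.prod_fiberwise univ f]
      refine Finset.prod_congr rfl (fun i _ => ?_)
      rw [← Finset.prod_const]
      refine Finset.prod_congr rfl (fun j hj => ?_)
      rw [Finset.mem_filter] at hj
      rw [hj.2]
    rw [h2, ← Finset.prod_mul_distrib]
    refine Finset.prod_congr rfl (fun i _ => ?_)
    rw [pow_add, pow_one]
  simp_rw [h1]
  have h3 : ∑ σ : Fin m → Bool, ∏ i, sg (σ i) ^ (1 + (univ.filter (fun j => f j = i)).card) =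
      ∏ i : Fin m, ∑ b : Bool, sg b ^ (1 + (univ.filter (fun j => f j = i)).card) := by
    rw [Finset.prod_univ_sum]
    simp only [Fintype.piFinset_univ]
  rw [h3]
  by_cases hf : Function.Bijective f
  · rw [if_pos hf]
    have h4 : ∀ i, (univ.filter (fun j => f j = i)).card = 1 := by
      intro i
      obtain ⟨j, hj, hu⟩ := hf.existsUnique i
      rw [Finset.card_eq_one]
      refine ⟨j, ?_⟩
      ext k
      simp only [Finset.mem_filter, Finset.mem_univ, true_and, Finset.mem_singleton]
      exact ⟨fun h => hu k h, fun h => h ▸ hj⟩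
    have h5 : ∀ i : Fin m, ∑ b : Bool, sg b ^ (1 + (univ.filter (fun j => f j = i)).card) = 2 := by
      intro i
      rw [h4 i]
      simp [sg]
    rw [Finset.prod_congr rfl (fun i _ => h5 i)]
    simp
  · rw [if_neg hf]
    have hs : ¬ Function.Surjective f := fun h => hf (Finite.surjective_iff_bijective.1 h)
    unfold Function.Surjective at hs
    push Not at hs
    obtain ⟨i, hi⟩ := hs
    apply Finset.prod_eq_zero (Finset.mem_univ i)
    have h4 : (univ.filter (fun j => f j = i)).card = 0 := by
      rw [Finset.card_eq_zero, Finset.filter_eq_empty_iff]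
      intro j _
      exact hi j
    rw [h4]
    simp [sg]

theorem p4 : Pool.Agent.E8helper29.Zn.Stm4 := by
  intro m y
  have h1 : ∀ σ : Fin m → Bool, (∑ i, sg (σ i) * y i) ^ m =
      ∑ f : Fin m → Fin m, (∏ j, sg (σ (f j))) * ∏ j, y (f j) := by
    intro σ
    have h2 : (∑ i, sg (σ i) * y i) ^ m = ∏ _j : Fin m, ∑ i, sg (σ i) * y i := by
      rw [Finset.prod_const, Finset.card_univ, Fintype.card_fin]
    rw [h2, Finset.prod_univ_sum]
    simp only [Fintype.piFinset_univ]
    refine Finset.sum_congr rfl (fun f _ => ?_)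
    rw [Finset.prod_mul_distrib]
  calc ∑ σ : Fin m → Bool, (∏ i, sg (σ i)) * (∑ i, sg (σ i) * y i) ^ m
      = ∑ σ : Fin m → Bool, ∑ f : Fin m → Fin m,
          ((∏ i, sg (σ i)) * ∏ j, sg (σ (f j))) * ∏ j, y (f j) := by
        refine Finset.sum_congr rfl (fun σ _ => ?_)
        rw [h1, Finset.mul_sum]
        refine Finset.sum_congr rfl (fun f _ => ?_)
        ring
    _ = ∑ f : Fin m → Fin m, (if Function.Bijective f then (2 : ℝ) ^ m else 0) *
          ∏ j, y (f j) := by
        rw [Finset.sum_comm]
        refine Finset.sum_congr rfl (fun f _ => ?_)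
        rw [← Finset.sum_mul, sum_signs]
    _ = ∑ f ∈ univ.filter (fun f : Fin m → Fin m => Function.Bijective f),
          (2 : ℝ) ^ m * ∏ i, y i := by
        rw [Finset.sum_filter]
        refine Finset.sum_congr rfl (fun f _ => ?_)
        split_ifs with hf
        · congr 1
          exact Function.Bijective.prod_comp hf y
        · simp
    _ = 2 ^ m * (m ! : ℝ) * ∏ i, y i := by
        rw [Finset.sum_const, nsmul_eq_mul]
        have h5 : (univ.filter (fun f : Fin m → Fin m => Function.Bijective f)).card = m ! := by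
          have h6 : (univ.filter (fun f : Fin m → Fin m => Function.Bijective f)).card =
              Fintype.card {f : Fin m → Fin m // Function.Bijective f} := by
            rw [Fintype.card_subtype]
          rw [h6, ← Fintype.card_congr (Equiv.ofBijective (fun e : Equiv.Perm (Fin m) =>
            (⟨e, e.bijective⟩ : {f : Fin m → Fin m // Function.Bijective f}))
            ⟨fun a b h => Equiv.ext (fun x => congrFun (congrArg Subtype.val h) x),
              fun f => ⟨Equiv.ofBijective f.1 f.2, by ext x; rfl⟩⟩), Fintype.card_perm,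
            Fintype.card_fin]
        rw [h5]
        ring

end Pool.Agent.E8helper7.Zn
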